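import Mathlib
import Pool.Agent.H60.BoseDefs

namespace Pool.Agent.Results.MP_cb32b9_nt.No

open Finset Pool.Agent.H60.Bose

theorem core {K : Type*} [Field K] (s : K) (U : ℕ → K) (h0 : U 0 = 0) (h1 : U 1 = 1)
    (hU : ∀ k, U (k + 2) = s * U (k + 1) - (s ^ 2 + s + 1) * U k)
    (g10 : ∑ k ∈ range 10, U k = 0) (g18 : ∑ k ∈ range 25, U k = 0)
    (g23 : ∑ k ∈ range 23, U k = 0) : False := by
  have h2 : U 2 = ((1)*s^1) := by rw [hU 0, h1, h0]; ring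
  have h3 : U 3 = ((-1)*s^0 + (-1)*s^1) := by rw [hU 1, h2, h1]; ring
  have h4 : U 4 = ((-2)*s^1 + (-2)*s^2 + (-1)*s^3) := by rw [hU 2, h3, h2]; ring
  have h5 : U 5 = ((1)*s^0 + (2)*s^1 + (-1)*s^3 + (-1)*s^4) := by rw [hU 3, h4, h3]; ring
  have h6 : U 6 = ((3)*s^1 + (6)*s^2 + (5)*s^3 + (2)*s^4) := by rw [hU 4, h5, h4]; ring
  have h7 : U 7 = ((-1)*s^0 + (-3)*s^1 + (5)*s^3 + (7)*s^4 + (4)*s^5 + (1)*s^6) := by rw [hU 5, h6, h5]; ring
  have h8 : U 8 = ((-4)*s^1 + (-12)*s^2 + (-14)*s^3 + (-8)*s^4 + (2)*s^6 + (1)*s^7) := by rw [hU 6, h7, h6]; ring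
  have h9 : U 9 = ((1)*s^0 + (4)*s^1 + (-14)*s^3 + (-26)*s^4 + (-24)*s^5 + (-12)*s^6 + (-3)*s^7) := by rw [hU 7, h8, h7]; ring
  have h10 : U 10 = ((5)*s^1 + (20)*s^2 + (30)*s^3 + (20)*s^4 + (-4)*s^5 + (-18)*s^6 + (-15)*s^7 + (-6)*s^8 + (-1)*s^9) := by rw [hU 8, h9, h8]; ring
  have h11 : U 11 = ((-1)*s^0 + (-5)*s^1 + (30)*s^3 + (70)*s^4 + (84)*s^5 + (58)*s^6 + (21)*s^7 + (-3)*s^9 + (-1)*s^10) := by rw [hU 9, h10, h9]; ring
  have h12 : U 12 = ((-6)*s^1 + (-30)*s^2 + (-55)*s^3 + (-40)*s^4 + (24)*s^5 + (86)*s^6 + (95)*s^7 + (60)*s^8 + (22)*s^9 + (4)*s^10) := by rw [hU 10, h11, h10]; ring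
  have h13 : U 13 = ((1)*s^0 + (6)*s^1 + (-55)*s^3 + (-155)*s^4 + (-224)*s^5 + (-188)*s^6 + (-77)*s^7 + (16)*s^8 + (42)*s^9 + (26)*s^10 + (8)*s^11 + (1)*s^12) := by rw [hU 11, h12, h11]; ring
  have h14 : U 14 = ((7)*s^1 + (42)*s^2 + (91)*s^3 + (70)*s^4 + (-84)*s^5 + (-294)*s^6 + (-393)*s^7 + (-318)*s^8 + (-161)*s^9 + (-44)*s^10 + (4)*s^12 + (1)*s^13) := by rw [hU 12, h13, h12]; ring
  have h15 : U 15 = ((-1)*s^0 + (-7)*s^1 + (91)*s^3 + (301)*s^4 + (504)*s^5 + (483)*s^6 + (195)*s^7 + (-144)*s^8 + (-299)*s^9 + (-245)*s^10 + (-120)*s^11 + (-35)*s^12 + (-5)*s^13) := by rw [hU 13, h14, h13]; ring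
  have h16 : U 16 = ((-8)*s^1 + (-56)*s^2 + (-140)*s^3 + (-112)*s^4 + (224)*s^5 + (812)*s^6 + (1254)*s^7 + (1200)*s^8 + (728)*s^9 + (224)*s^10 + (-40)*s^11 + (-80)*s^12 + (-40)*s^13 + (-10)*s^14 + (-1)*s^15) := by rw [hU 14, h15, h14]; ring
  have h17 : U 17 = ((1)*s^0 + (8)*s^1 + (-140)*s^3 + (-532)*s^4 + (-1008)*s^5 + (-1064)*s^6 + (-370)*s^7 + (720)*s^8 + (1448)*s^9 + (1416)*s^10 + (888)*s^11 + (360)*s^12 + (80)*s^13 + (-5)*s^15 + (-1)*s^16) := by rw [hU 15, h16, h15]; ring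
  have h18 : U 18 = ((9)*s^1 + (72)*s^2 + (204)*s^3 + (168)*s^4 + (-504)*s^5 + (-1932)*s^6 + (-3354)*s^7 + (-3636)*s^8 + (-2462)*s^9 + (-704)*s^10 + (504)*s^11 + (784)*s^12 + (520)*s^13 + (210)*s^14 + (51)*s^15 + (6)*s^16) := by rw [hU 16, h17, h16]; ring
  have h19 : U 19 = ((-1)*s^0 + (-9)*s^1 + (204)*s^3 + (876)*s^4 + (1848)*s^5 + (2100)*s^6 + (510)*s^7 + (-2640)*s^8 + (-5434)*s^9 + (-6046)*s^10 + (-4456)*s^11 + (-2160)*s^12 + (-544)*s^13 + (80)*s^14 + (135)*s^15 + (57)*s^16 + (12)*s^17 + (1)*s^18) := by rw [hU 17, h18, h17]; ring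
  have h20 : U 20 = ((-10)*s^1 + (-90)*s^2 + (-285)*s^3 + (-240)*s^4 + (1008)*s^5 + (4116)*s^6 + (7890)*s^7 + (9432)*s^8 + (6812)*s^9 + (1368)*s^10 + (-3384)*s^11 + (-5040)*s^12 + (-3968)*s^13 + (-2058)*s^14 + (-701)*s^15 + (-132)*s^16 + (6)*s^18 + (1)*s^19) := by rw [hU 18, h19, h18]; ring
  have h21 : U 21 = ((1)*s^0 + (10)*s^1 + (-285)*s^3 + (-1365)*s^4 + (-3168)*s^5 + (-3816)*s^6 + (-342)*s^7 + (7920)*s^8 + (16996)*s^9 + (20932)*s^10 + (17304)*s^11 + (9278)*s^12 + (2120)*s^13 + (-1344)*s^14 + (-1729)*s^15 + (-973)*s^16 + (-336)*s^17 + (-70)*s^18 + (-7)*s^19) := by rw [hU 19, h20, h19]; ring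
  have h22 : U 22 = ((11)*s^1 + (110)*s^2 + (385)*s^3 + (330)*s^4 + (-1848)*s^5 + (-8052)*s^6 + (-16830)*s^7 + (-21780)*s^8 + (-16214)*s^9 + (-616)*s^10 + (16136)*s^11 + (24360)*s^12 + (21670)*s^13 + (13186)*s^14 + (5383)*s^15 + (1162)*s^16 + (-140)*s^17 + (-210)*s^18 + (-77)*s^19 + (-14)*s^20 + (-1)*s^21) := by rw [hU 20, h21, h20]; ring
  have h23 : U 23 = ((-1)*s^0 + (-11)*s^1 + (385)*s^3 + (2035)*s^4 + (5148)*s^5 + (6501)*s^6 + (-726)*s^7 + (-20592)*s^8 + (-46354)*s^9 + (-62062)*s^10 + (-55848)*s^11 + (-31378)*s^12 + (-4342)*s^13 + (11616)*s^14 + (14139)*s^15 + (9429)*s^16 + (4200)*s^17 + (1239)*s^18 + (203)*s^19 + (-7)*s^21 + (-1)*s^22) := by rw [hU 21, h22, h21]; ring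
  have h24 : U 24 = ((-12)*s^1 + (-132)*s^2 + (-506)*s^3 + (-440)*s^4 + (3168)*s^5 + (14718)*s^6 + (33231)*s^7 + (45936)*s^8 + (34232)*s^9 + (-7744)*s^10 + (-61368)*s^11 + (-95728)*s^12 + (-93544)*s^13 + (-63558)*s^14 + (-28623)*s^15 + (-5592)*s^16 + (3024)*s^17 + (3388)*s^18 + (1666)*s^19 + (504)*s^20 + (92)*s^21 + (8)*s^22) := by rw [hU 22, h23, h22]; ring
  simp only [sum_range_succ, range_zero, sum_empty, h0, h1, h2, h3, h4, h5, h6, h7, h8, h9, h10, h11, h12, h13, h14, h15, h16, h17, h18, h19, h20, h21, h22, h23, h24] at g10 g18 g23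
  have e10 : ((1)*s^0 + (-8)*s^2 + (-20)*s^3 + (-26)*s^4 + (-20)*s^5 + (-9)*s^6 + (-2)*s^7) = 0 := by linear_combination g10
  have e18 : ((-12)*s^1 + (-72)*s^2 + (-66)*s^3 + (960)*s^4 + (5148)*s^5 + (13501)*s^6 + (21087)*s^7 + (16168)*s^8 + (-10648)*s^9 + (-53492)*s^10 + (-90376)*s^11 + (-99634)*s^12 + (-78052)*s^13 + (-41878)*s^14 + (-11351)*s^15 + (3956)*s^16 + (6760)*s^17 + (4354)*s^18 + (1786)*s^19 + (490)*s^20 + (84)*s^21 + (7)*s^22) = 0 := by linear_combination g18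
  have e23 : ((1)*s^0 + (11)*s^1 + (60)*s^2 + (55)*s^3 + (-635)*s^4 + (-3168)*s^5 + (-7718)*s^6 + (-11418)*s^7 + (-9176)*s^8 + (1474)*s^9 + (16314)*s^10 + (26840)*s^11 + (27472)*s^12 + (19834)*s^13 + (10064)*s^14 + (3133)*s^15 + (119)*s^16 + (-464)*s^17 + (-273)*s^18 + (-83)*s^19 + (-14)*s^20 + (-1)*s^21) = 0 := by linear_combination g23
  have f : (13 : K) ^ 1 = 0 := by linear_combination ((51)*s^0 + (456)*s^1 + (2846)*s^2 + (5605)*s^3 + (-11317)*s^4 + (-85316)*s^5 + (-213442)*s^6 + (-291693)*s^7 + (-174350)*s^8 + (153009)*s^9 + (503787)*s^10 + (648904)*s^11 + (532332)*s^12 + (291423)*s^13 + (93762)*s^14 + (2587)*s^15 + (-14505)*s^16 + (-7870)*s^17 + (-2095)*s^18 + (-278)*s^19 + (-14)*s^20) * e10 + ((-38)*s^0 + (-38)*s^1 + (260)*s^2 + (573)*s^3 + (588)*s^4 + (290)*s^5 + (28)*s^6) * e23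
  have f13 : (13 : K) = 0 := pow_eq_zero_iff (by norm_num) |>.1 f
  have : (1 : K) = 0 := by linear_combination ((5)*s^0 + (3)*s^1 + (2)*s^2 + (2)*s^4 + (2)*s^5 + (4)*s^6 + (6)*s^7 + (9)*s^8 + (3)*s^9 + (6)*s^10 + (11)*s^11 + (11)*s^12 + (10)*s^13 + (2)*s^14 + (3)*s^15 + (4)*s^16 + (11)*s^17 + (12)*s^18 + (9)*s^19 + (7)*s^20 + (5)*s^21 + (9)*s^22 + (3)*s^23 + (4)*s^24 + (7)*s^25 + (2)*s^26 + (10)*s^27 + (6)*s^28 + (1)*s^29 + (3)*s^31 + (3)*s^32 + (11)*s^33 + (2)*s^34 + (9)*s^35 + (11)*s^36 + (4)*s^37 + (4)*s^38) * e10 + ((9)*s^0 + (7)*s^1 + (4)*s^2 + (9)*s^3 + (10)*s^4 + (9)*s^5 + (2)*s^6 + (5)*s^7 + (12)*s^8 + (4)*s^9 + (2)*s^10 + (4)*s^11 + (5)*s^12 + (7)*s^13 + (12)*s^14 + (10)*s^15 + (5)*s^16 + (11)*s^17 + (10)*s^18 + (7)*s^19 + (4)*s^20 + (6)*s^21 + (3)*s^22 + (3)*s^23 + (5)*s^24) * e23 + ((8)*s^0 + (6)*s^1 + (12)*s^2) * e18 - ((1)*s^0 + (1)*s^1 + (-5)*s^2 + (-20)*s^3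 + (95)*s^4 + (1066)*s^5 + (4405)*s^6 + (10561)*s^7 + (14629)*s^8 + (4746)*s^9 + (-29723)*s^10 + (-83488)*s^11 + (-130854)*s^12 + (-142436)*s^13 + (-109514)*s^14 + (-50604)*s^15 + (5571)*s^16 + (40760)*s^17 + (52608)*s^18 + (47368)*s^19 + (33280)*s^20 + (19110)*s^21 + (12672)*s^22 + (16983)*s^23 + (28616)*s^24 + (41387)*s^25 + (51437)*s^26 + (58218)*s^27 + (61795)*s^28 + (61273)*s^29 + (56317)*s^30 + (48831)*s^31 + (41844)*s^32 + (36745)*s^33 + (32249)*s^34 + (26263)*s^35 + (18384)*s^36 + (10326)*s^37 + (4223)*s^38 + (917)*s^39 + (-215)*s^40 + (-305)*s^41 + (-151)*s^42 + (-46)*s^43 + (-9)*s^44 + (-1)*s^45) * f13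
  exact one_ne_zero this

def UU {K : Type*} [Field K] (s P : K) : ℕ → K
  | 0 => 0
  | 1 => 1
  | k + 2 => s * UU s P (k + 1) - P * UU s P k

theorem UU_eq {K : Type*} [Field K] (x y : K) : ∀ k, (x - y) * UU (x + y) (x * y) k = x ^ k - y ^ k
  | 0 => by simp [UU]
  | 1 => by simp [UU]
  | k + 2 => by
    have h1 := UU_eq x y k
    have h2 := UU_eq x y (k + 1)
    rw [UU]
    linear_combination (x + y) * h2 - x * y * h1

theorem core2 {K : Type*} [Field K] (x y : K) (hxy : x ≠ y) (hx : x ≠ 1) (hy : y ≠ 1)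
    (h : ∀ t ∈ ({4, 10, 25, 23} : Finset ℕ), (x ^ t - 1) * (y - 1) = (y ^ t - 1) * (x - 1)) : False := by
  have hs : ∀ t ∈ ({4, 10, 25, 23} : Finset ℕ), ∑ k ∈ range t, UU (x + y) (x * y) k = 0 := by
    intro t ht
    have h1 := h t ht
    rw [← geom_sum_mul x, ← geom_sum_mul y] at h1
    have h2 : (x - y) * ∑ k ∈ range t, UU (x + y) (x * y) k =
        ∑ k ∈ range t, x ^ k - ∑ k ∈ range t, y ^ k := by
      rw [Finset.mul_sum, ← Finset.sum_sub_distrib]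
      exact Finset.sum_congr rfl fun k _ => UU_eq x y k
    have h3 : ((x - 1) * (y - 1) * (x - y)) * ∑ k ∈ range t, UU (x + y) (x * y) k = 0 := by
      rw [mul_assoc, h2]; linear_combination h1
    exact (mul_eq_zero.1 h3).resolve_left (mul_ne_zero (mul_ne_zero (sub_ne_zero.2 hx)
      (sub_ne_zero.2 hy)) (sub_ne_zero.2 hxy))
  have h4 := hs 4 (by simp)
  simp only [sum_range_succ, range_zero, sum_empty, UU] at h4
  have hP : x * y = (x + y) ^ 2 + (x + y) + 1 := by linear_combination -h4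
  refine core (x + y) (UU (x + y) (x * y)) rfl rfl (fun k => ?_) (hs 10 (by simp)) (hs 25 (by simp))
    (hs 23 (by simp))
  rw [UU, ← hP]

theorem result (F K : Type) [Field F] [Finite F] [Field K] [Algebra F K] (q : ℕ)
    (hq : Nat.card F = q) (θ : K) (hθ : orderOf θ = q ^ 2 - 1)
    (m : ℤ) (s : ZMod (q ^ 2 - 1)) :
    ¬ ∀ t ∈ ({0, 1, 4, 10, 18, 23, 25} : Finset ℕ), (t : ZMod (q ^ 2 - 1)) ∈
      (fun a => (m : ZMod (q ^ 2 - 1)) * a + s) '' BoseSet F θ (q ^ 2 - 1) 1 := by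
  intro h
  have : Fintype F := Fintype.ofFinite F
  rw [Nat.card_eq_fintype_card] at hq
  have hq2 : 2 ≤ q := hq ▸ Fintype.one_lt_card
  have hM : q + 1 ≤ q ^ 2 - 1 := by
    have : q + 2 ≤ q ^ 2 := by nlinarith
    omega
  set M := q ^ 2 - 1 with hMdef
  have : NeZero M := ⟨by omega⟩
  have : Fact (1 < M) := ⟨by omega⟩
  set φ := FiniteField.frobeniusAlgHom F K with hφ
  have hφa : ∀ z, φ z = z ^ q := fun z => by rw [hφ, ← hq]; rfl
  have hθ0 : θ ≠ 0 := by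
    rintro rfl
    have := pow_orderOf_eq_one (0 : K)
    rw [hθ, zero_pow (by omega)] at this
    exact zero_ne_one this
  set e : ZMod M → K := fun a => θ ^ a.val with he
  have hadd : ∀ a b, e (a + b) = e a * e b := by
    intro a b
    simp only [he]
    rw [ZMod.val_add, ← pow_add]
    have := pow_mod_orderOf θ (a.val + b.val)
    rwa [hθ] at this
  have hmul : ∀ (a : ZMod M) (t : ℕ), e (a * t) = e a ^ t := by
    intro a t
    induction t with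
    | zero => simp [he]
    | succ t ih => rw [Nat.cast_succ, mul_add, mul_one, hadd, ih, pow_succ]
  obtain ⟨a0, ⟨v0, ha0⟩, hs0⟩ := h 0 (by simp)
  obtain ⟨a1, ⟨v1, ha1⟩, hs1⟩ := h 1 (by simp)
  simp only [Nat.cast_zero, Nat.cast_one] at hs0 hs1
  set u := a1 - a0 with hu
  have hmu : (m : ZMod M) * u = 1 := by rw [hu]; linear_combination hs1 - hs0
  set x := e u with hx
  set c := e a0 with hc
  have hc0 : c ≠ 0 := pow_ne_zero _ hθ0
  have key : ∀ t ∈ ({0, 1, 4, 10, 18, 23, 25} : Finset ℕ),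
      φ c * (φ x ^ t - 1) = c * (x ^ t - 1) := by
    intro t ht
    obtain ⟨a, ⟨v, ha⟩, hs⟩ := h t ht
    simp only at hs
    have h1 : a = a0 + u * t := by linear_combination u * hs - u * hs0 - (a - a0) * hmu
    have h2 : e a = c * x ^ t := by rw [h1, hadd, hmul]
    have h3 : c * (x ^ t - 1) = algebraMap F K (v - v0) := by
      rw [map_sub, mul_sub, ← h2, mul_one, hc]
      simp only [he]
      rw [ha, ha0]; ring
    have h4 := congrArg φ h3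
    rw [AlgHom.commutes, ← h3] at h4
    simpa using h4
  have hx1 : x ≠ 1 := by
    intro h1
    have h2 := hmul u (m : ZMod M).val
    rw [ZMod.natCast_zmod_val, mul_comm, hmu, ← hx, h1, one_pow] at h2
    simp only [he, ZMod.val_one, pow_one] at h2
    rw [h2, orderOf_one] at hθ
    omega
  have hy1 : φ x ≠ 1 := fun h1 => hx1 (φ.toRingHom.injective (by simpa using h1))
  have k1 := key 1 (by simp)
  rw [pow_one, pow_one] at k1
  have hxy : x ≠ φ x := by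
    intro h1
    rw [← h1] at k1
    have h2 : φ c = c := mul_right_cancel₀ (sub_ne_zero.2 hx1) k1
    have h3 : c = θ + algebraMap F K v0 := by rw [hc]; simp only [he]; rw [ha0, pow_one]
    rw [h3, map_add, AlgHom.commutes, add_left_inj, hφa] at h2
    have h4 : θ ^ (q - 1) = 1 := by
      apply mul_right_cancel₀ hθ0
      rw [← pow_succ, Nat.sub_add_cancel (by omega), h2, one_mul]
    have := Nat.le_of_dvd (by omega) (orderOf_dvd_of_pow_eq_one h4)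
    omega
  apply core2 x (φ x) hxy hx1 hy1
  intro t ht
  have k2 := key t (by simp only [mem_insert, mem_singleton] at ht ⊢; omega)
  apply mul_left_cancel₀ hc0
  linear_combination (φ x ^ t - 1) * k1 - (φ x - 1) * k2

end Pool.Agent.Results.MP_cb32b9_nt.No
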